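import Pool.Agent.Helper85.IA.St

/-! IA85, module RS1 (existence of a good outcome of one round). -/

set_option autoImplicit false

namespace Pool.Agent.Helper87.IA85

open Finset Pool.Agent.Helper93.IA Pool.Agent.Helper85.IA

section

variable {α β γ : Type} [Fintype α] [Fintype β] [Fintype γ] [DecidableEq α] [DecidableEq β]
  [DecidableEq γ]

private theorem yd {Λ ε δ d : ℝ} {n : ℕ} {A : Finset (α × β)} {B : Finset (β × γ)}
    {C : Finset (γ × α)} {x : α → β → γ → ℝ} (hΛ : 0 < Λ) (h0 : 0 < ε) (h1 : ε ≤ 1)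
    (D : Dat Λ δ d n A B C x) : Yd ε (Λ / n) (fun a b c => ε * x a b c) where
  e1 := h1
  nn a b c := mul_nonneg h0.le (D.x0 a b c)
  le a b c := by
    have hx := D.xl a b c
    have hx0 := D.x0 a b c
    have : ε * x a b c ≤ 1 * x a b c := mul_le_mul_of_nonneg_right h1 hx0
    linarith
  sA a b := by
    rw [← Finset.mul_sum]
    have := mul_le_mul_of_nonneg_left (D.uA a b) h0.le
    linarith
  sB b c := by
    rw [← Finset.mul_sum]
    have := mul_le_mul_of_nonneg_left (D.uB b c) h0.le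
    linarith
  sC c a := by
    rw [← Finset.mul_sum]
    have := mul_le_mul_of_nonneg_left (D.uC c a) h0.le
    linarith

/-- Index type of the tests. -/
private abbrev J (α β γ : Type) : Type :=
  ((Bool × (α × β)) ⊕ ((Bool × (β × γ)) ⊕ (Bool × (γ × α)))) ⊕
    ((α ⊕ β) ⊕ ((β ⊕ γ) ⊕ (γ ⊕ α)))

private def fJ (r : ℝ) (A : Finset (α × β)) (B : Finset (β × γ)) (C : Finset (γ × α))
    (x : α → β → γ → ℝ) : J α β γ → (α × β → Option γ) → ℝ
  | .inl (.inl (true, (a, b))) => fun σ => r * F1 σ (fun c => x a b c) 1 1 a b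
  | .inl (.inl (false, (a, b))) => fun σ => -r * F1 σ (fun c => x a b c) 1 1 a b
  | .inl (.inr (.inl (true, (b, c)))) => fun σ => r * F3 σ (fun a => x a b c) 1 1 b c
  | .inl (.inr (.inl (false, (b, c)))) => fun σ => -r * F3 σ (fun a => x a b c) 1 1 b c
  | .inl (.inr (.inr (true, (c, a)))) => fun σ => r * F2 σ (fun b => x a b c) 1 1 c a
  | .inl (.inr (.inr (false, (c, a)))) => fun σ => -r * F2 σ (fun b => x a b c) 1 1 c a
  | .inr (.inl (.inl a)) => fun σ => ∑ b, (if (a, b) ∈ A then 1 - kA σ a b else 0)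
  | .inr (.inl (.inr b)) => fun σ => ∑ a, (if (a, b) ∈ A then 1 - kA σ a b else 0)
  | .inr (.inr (.inl (.inl b))) => fun σ => ∑ c, (if (b, c) ∈ B then 1 - kB σ b c else 0)
  | .inr (.inr (.inl (.inr c))) => fun σ => ∑ b, (if (b, c) ∈ B then 1 - kB σ b c else 0)
  | .inr (.inr (.inr (.inl c))) => fun σ => ∑ a, (if (c, a) ∈ C then 1 - kC σ c a else 0)
  | .inr (.inr (.inr (.inr a))) => fun σ => ∑ c, (if (c, a) ∈ C then 1 - kC σ c a else 0)

private noncomputable def bJ (r K K' Λη e ηn : ℝ) (A : Finset (α × β)) (B : Finset (β × γ))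
    (C : Finset (γ × α)) (x : α → β → γ → ℝ) : J α β γ → ℝ
  | .inl (.inl (true, (a, b))) => r * (K * ∑ c, x a b c + Λη)
  | .inl (.inl (false, (a, b))) => -r * (K' * ∑ c, x a b c - Λη)
  | .inl (.inr (.inl (true, (b, c)))) => r * (K * ∑ a, x a b c + Λη)
  | .inl (.inr (.inl (false, (b, c)))) => -r * (K' * ∑ a, x a b c - Λη)
  | .inl (.inr (.inr (true, (c, a)))) => r * (K * ∑ b, x a b c + Λη)
  | .inl (.inr (.inr (false, (c, a)))) => -r * (K' * ∑ b, x a b c - Λη)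
  | .inr (.inl (.inl a)) => (1 - e / 2) * d1 A a + ηn
  | .inr (.inl (.inr b)) => (1 - e / 2) * d2 A b + ηn
  | .inr (.inr (.inl (.inl b))) => (1 - e / 2) * d1 B b + ηn
  | .inr (.inr (.inl (.inr c))) => (1 - e / 2) * d2 B c + ηn
  | .inr (.inr (.inr (.inl c))) => (1 - e / 2) * d1 C c + ηn
  | .inr (.inr (.inr (.inr a))) => (1 - e / 2) * d2 C a + ηn

end

theorem hRS1 : StSEL → StTSA → StTSB → StTSC → StTDA → StTDB → StTDC → StRS1 := by
  intro hSEL hTSA hTSB hTSC hTDA hTDB hTDC Λ ε δ d η hΛ hε hε8 hδ hδ4 hη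
  obtain ⟨η', hη', hη'1, hη'2⟩ : ∃ η' : ℝ, 0 < η' ∧ η' ≤ η ∧ Λ * η' ≤ η := by
    refine ⟨min η (η / Λ), lt_min hη (div_pos hη hΛ), min_le_left _ _, ?_⟩
    have := mul_le_mul_of_nonneg_left (min_le_right η (η / Λ)) hΛ.le
    rwa [mul_div_cancel₀ _ hΛ.ne'] at this
  obtain ⟨n1, hn1, hS⟩ := hSEL Λ η' hΛ hη'
  refine ⟨n1, hn1, ?_⟩
  intro α β γ _ _ _ _ _ _ n A B C x hn D
  have hn0 : 0 < n := lt_of_lt_of_le hn1 hn
  have hnR : (0 : ℝ) < n := by exact_mod_cast hn0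
  have hY := yd hΛ hε (by linarith) D
  obtain ⟨r, hr⟩ : ∃ r : ℝ, r = (n : ℝ) / Λ := ⟨_, rfl⟩
  have hr0 : 0 < r := by rw [hr]; exact div_pos hnR hΛ
  obtain ⟨K, hK⟩ : ∃ K : ℝ, K = 1 - 2 * ((1 - 2 * ε) * ((1 - δ) * ε)) + ε ^ 2 + ε * Λ / n :=
    ⟨_, rfl⟩
  have hcard : Fintype.card (J α β γ) ≤ 20 * n ^ 2 := by
    simp only [Fintype.card_sum, Fintype.card_prod, Fintype.card_bool, D.nα, D.nβ, D.nγ]
    nlinarith [hn0]
  have htest : ∀ j : J α β γ, Tst (fun a b c => ε * x a b c) (η' * n) n (fJ r A B C x j)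
      (bJ r K (1 - 2 * ε) (Λ * η') ε (η' * n) A B C x j) := by
    intro j
    rcases j with ((⟨s, a, b⟩ | (⟨s, b, c⟩ | ⟨s, c, a⟩)) | ((a | b) | ((b | c) | (c | a))))
    · have h := hTSA α β γ Λ ε δ d η' n A B C x hΛ hε hε8 hδ hδ4 hη' hn0 D a b
      rw [← hr, ← hK] at h
      cases s
      · exact h.2
      · exact h.1
    · have h := hTSB α β γ Λ ε δ d η' n A B C x hΛ hε hε8 hδ hδ4 hη' hn0 D b c
      rw [← hr, ← hK] at h
      cases s
      · exact h.2
      · exact h.1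
    · have h := hTSC α β γ Λ ε δ d η' n A B C x hΛ hε hε8 hδ hδ4 hη' hn0 D c a
      rw [← hr, ← hK] at h
      cases s
      · exact h.2
      · exact h.1
    · exact (hTDA α β γ Λ ε δ d η' n A B C x hΛ hε hε8 hδ hδ4 hη' hn0 D).1 a
    · exact (hTDA α β γ Λ ε δ d η' n A B C x hΛ hε hε8 hδ hδ4 hη' hn0 D).2 b
    · exact (hTDB α β γ Λ ε δ d η' n A B C x hΛ hε hε8 hδ hδ4 hη' hn0 D).1 b
    · exact (hTDB α β γ Λ ε δ d η' n A B C x hΛ hε hε8 hδ hδ4 hη' hn0 D).2 c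
    · exact (hTDC α β γ Λ ε δ d η' n A B C x hΛ hε hε8 hδ hδ4 hη' hn0 D).1 c
    · exact (hTDC α β γ Λ ε δ d η' n A B C x hΛ hε hε8 hδ hδ4 hη' hn0 D).2 a
  obtain ⟨σ, hσ, hlt⟩ := hS α β γ n ε (fun a b c => ε * x a b c) hn D.nα D.nβ hY (J α β γ)
    (fJ r A B C x) (bJ r K (1 - 2 * ε) (Λ * η') ε (η' * n) A B C x) hcard htest
  have up : ∀ F s : ℝ, r * F < r * (K * s + Λ * η') → F ≤ K * s + η := by
    intro F s h
    have := lt_of_mul_lt_mul_left h hr0.le
    linarith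
  have lo : ∀ F s : ℝ, -r * F < -r * ((1 - 2 * ε) * s - Λ * η') → (1 - 2 * ε) * s - η ≤ F := by
    intro F s h
    have h' : r * ((1 - 2 * ε) * s - Λ * η') < r * F := by linarith
    have := lt_of_mul_lt_mul_left h' hr0.le
    linarith
  have dg : ∀ F s : ℝ, F < s + η' * n → F ≤ s + η * n := by
    intro F s h
    have := mul_le_mul_of_nonneg_right hη'1 hnR.le
    linarith
  refine ⟨σ, ?_⟩
  rw [hK] at up
  exact
    { pos := fun a b c h h' => hσ a b c h (by rw [h', mul_zero])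
      loA := fun a b => lo _ _ (hlt (.inl (.inl (false, (a, b)))))
      upA := fun a b => up _ _ (by rw [← hK]; exact hlt (.inl (.inl (true, (a, b)))))
      loB := fun b c => lo _ _ (hlt (.inl (.inr (.inl (false, (b, c))))))
      upB := fun b c => up _ _ (by rw [← hK]; exact hlt (.inl (.inr (.inl (true, (b, c))))))
      loC := fun c a => lo _ _ (hlt (.inl (.inr (.inr (false, (c, a))))))
      upC := fun c a => up _ _ (by rw [← hK]; exact hlt (.inl (.inr (.inr (true, (c, a))))))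
      dA1 := fun a => dg _ _ (hlt (.inr (.inl (.inl a))))
      dA2 := fun b => dg _ _ (hlt (.inr (.inl (.inr b))))
      dB1 := fun b => dg _ _ (hlt (.inr (.inr (.inl (.inl b)))))
      dB2 := fun c => dg _ _ (hlt (.inr (.inr (.inl (.inr c)))))
      dC1 := fun c => dg _ _ (hlt (.inr (.inr (.inr (.inl c)))))
      dC2 := fun a => dg _ _ (hlt (.inr (.inr (.inr (.inr a))))) }

end Pool.Agent.Helper87.IA85
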